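import Pool.Agent.Helper48.HD.FB

/-!
Homological dimensions of modules over the algebra of holomorphic functions on a complex manifold
and over the algebra of a tube over it.
-/

set_option autoImplicit false

namespace Pool.Agent.Results.MP_1cfca6_an.ModuleShift

open HD Pool.Agent.Helper39.ST

theorem result {n N m c : ℕ} {S W : Type}
    [TopologicalSpace S] [ChartedSpace (EuclideanSpace ℂ (Fin n)) S] [CMan n S]
    [TopologicalSpace W] [ChartedSpace (EuclideanSpace ℂ (Fin N)) W] [CMan N W]
    (T : GTube n N m S W) (hc : ∀ s, (T.e s).rank = c)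
    (X : PMod Unit (Hol n S)) (hX : X.Poly) (h1 : ∀ i x, X.act i 1 x = x) (h0 : ∃ x : X.V, x ≠ 0)
    (X' : PMod Unit (Hol N W)) (hX' : IsPull T.restr X X') : X'.dh = X.dh + c :=
  module_shift T hc X hX h1 h0 X' hX'

end Pool.Agent.Results.MP_1cfca6_an.ModuleShift
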