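import Pool.Agent.Helper48.HD.FB

/-!
Homological dimensions of the algebra of holomorphic functions on a complex manifold and on a tube
over it.
-/

set_option autoImplicit false

namespace Pool.Agent.Results.MP_1cfca6_an.TubeReduction

open HD

theorem result {n N m c : ℕ} {S W : Type}
    [TopologicalSpace S] [ChartedSpace (EuclideanSpace ℂ (Fin n)) S] [CMan n S] [Nonempty S]
    [TopologicalSpace W] [ChartedSpace (EuclideanSpace ℂ (Fin N)) W] [CMan N W]
    (T : GTube n N m S W) (hc : ∀ s, (T.e s).rank = c) :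
    N = n + c ∧ dgO n S + c ≤ dgO N W ∧ dsO n S + c ≤ dsO N W ∧ dbO n S + c ≤ dbO N W ∧
    ((∃ s : S, CoordAt (n := n) s) →
      (dbO N W ≤ N → dbO n S = n ∧ dgO n S = n ∧ dsO n S = n) ∧
      (dgO N W ≤ N → dgO n S = n ∧ dsO n S = n) ∧ (dsO N W ≤ N → dsO n S = n)) :=
  tube_reduction T hc

end Pool.Agent.Results.MP_1cfca6_an.TubeReduction
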